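import Mathlib

set_option autoImplicit false

namespace Pool.Agent.KZT

open Finset

/-- The reflection of the coordinates of index `≥ k`. -/
def nuR (k : ℕ) {n : ℕ} (x : Fin n → ℝ) : Fin n → ℝ := fun j => if (j : ℕ) < k then x j else -x j

theorem nuR_nuR (k : ℕ) {n : ℕ} (x : Fin n → ℝ) : nuR k (nuR k x) = x := by
  funext j
  unfold nuR
  split_ifs <;> simp

theorem continuous_nuR (k : ℕ) {n : ℕ} : Continuous (nuR k : (Fin n → ℝ) → Fin n → ℝ) := by
  unfold nuR
  refine continuous_pi fun j => ?_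
  split_ifs
  · exact continuous_apply j
  · exact (continuous_apply j).neg

theorem norm_nuR (k : ℕ) {n : ℕ} (x : Fin n → ℝ) : ‖nuR k x‖ = ‖x‖ := by
  have h : ∀ j, ‖nuR k x j‖ = ‖x j‖ := by
    intro j
    unfold nuR
    split_ifs
    · rfl
    · exact norm_neg _
  simp only [Pi.norm_def, Pi.nnnorm_def]
  congr 1
  refine Finset.sup_congr rfl fun j _ => ?_
  exact NNReal.eq (h j)

/-- Extension of a vector by zeros. -/
def pad {k : ℕ} (n : ℕ) (u : Fin k → ℝ) : Fin n → ℝ := fun j => if h : (j : ℕ) < k then u ⟨j, h⟩ else 0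

end Pool.Agent.KZT
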