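import Mathlib

set_option autoImplicit false

namespace Pool.Agent.KZT

open Finset Topology

/-- the collapse before normalisation -/
noncomputable def t1q_p {j : ℕ} (z : Fin j → ℝ) : Fin (j + 1) → ℝ :=
  Fin.snoc (α := fun _ => ℝ) (fun i => 4 * (1 - ‖z‖) * z i) (2 * ‖z‖ - 1)

theorem t1q_p_cast {j : ℕ} (z : Fin j → ℝ) (i : Fin j) :
    t1q_p z i.castSucc = 4 * (1 - ‖z‖) * z i := by
  simp [t1q_p]

theorem t1q_p_last {j : ℕ} (z : Fin j → ℝ) : t1q_p z (Fin.last j) = 2 * ‖z‖ - 1 := by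
  simp [t1q_p]

theorem t1q_p_ne {j : ℕ} (z : Fin j → ℝ) : t1q_p z ≠ 0 := by
  intro h
  have h1 : 2 * ‖z‖ - 1 = 0 := by
    rw [← t1q_p_last, h]
    rfl
  have h2 : z = 0 := by
    funext i
    have h3 : 4 * (1 - ‖z‖) * z i = 0 := by
      rw [← t1q_p_cast, h]
      rfl
    have h4 : ‖z‖ = 1 / 2 := by linarith
    rw [h4] at h3
    have h5 : z i = 0 := by linarith
    exact h5
  rw [h2, norm_zero] at h1
  norm_num at h1

theorem t1q_p_cont {j : ℕ} : Continuous (t1q_p (j := j)) := by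
  apply continuous_pi
  intro i
  refine Fin.lastCases ?_ (fun i => ?_) i
  · simp only [t1q_p_last]
    exact (continuous_const.mul continuous_norm).sub continuous_const
  · simp only [t1q_p_cast]
    exact (continuous_const.mul (continuous_const.sub continuous_norm)).mul (continuous_apply i)

theorem t1q_inj {j : ℕ} (z z' : Fin j → ℝ) (hz : ‖z‖ ≤ 1) (hz' : ‖z'‖ ≤ 1) (c : ℝ) (hc : 0 < c)
    (h1 : ∀ i, (1 - ‖z‖) * z i = c * ((1 - ‖z'‖) * z' i))
    (h2 : 2 * ‖z‖ - 1 = c * (2 * ‖z'‖ - 1)) : z = z' ∨ (‖z‖ = 1 ∧ ‖z'‖ = 1) := by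
  have h3 : (1 - ‖z‖) * ‖z‖ = c * ((1 - ‖z'‖) * ‖z'‖) := by
    have h4 : (1 - ‖z‖) • z = (c * (1 - ‖z'‖)) • z' := by
      funext i
      simp only [Pi.smul_apply, smul_eq_mul]
      rw [h1 i]
      ring
    have h5 := congrArg (fun v => ‖v‖) h4
    simp only [norm_smul, Real.norm_eq_abs] at h5
    rw [abs_of_nonneg (by linarith), abs_of_nonneg (mul_nonneg hc.le (by linarith))] at h5
    rw [h5]
    ring
  have hr0 : 0 ≤ ‖z‖ := norm_nonneg z
  have hr0' : 0 ≤ ‖z'‖ := norm_nonneg z'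
  rcases eq_or_lt_of_le hz with hr | hr
  · right
    refine ⟨hr, ?_⟩
    rw [hr] at h3 h2
    have h4 : (1 - ‖z'‖) * ‖z'‖ = 0 := by
      have : c * ((1 - ‖z'‖) * ‖z'‖) = 0 := by
        rw [← h3]
        ring
      rcases mul_eq_zero.mp this with h | h
      · exact absurd h hc.ne'
      · exact h
    rcases mul_eq_zero.mp h4 with h | h
    · linarith
    · rw [h] at h2
      linarith
  rcases eq_or_lt_of_le hz' with hr' | hr'
  · exfalso
    rw [hr'] at h3 h2
    have h4 : (1 - ‖z‖) * ‖z‖ = 0 := by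
      rw [h3]
      ring
    rcases mul_eq_zero.mp h4 with h | h
    · linarith
    · rw [h] at h2
      linarith
  left
  rcases eq_or_lt_of_le hr0 with h0 | h0
  · have h4 : c * ((1 - ‖z'‖) * ‖z'‖) = 0 := by
      rw [← h3, ← h0]
      ring
    have h5 : ‖z'‖ = 0 := by
      rcases mul_eq_zero.mp h4 with h | h
      · exact absurd h hc.ne'
      · rcases mul_eq_zero.mp h with h | h
        · linarith
        · exact h
    rw [norm_eq_zero.mp h0.symm, norm_eq_zero.mp h5]
  rcases eq_or_lt_of_le hr0' with h0' | h0'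
  · have h4 : (1 - ‖z‖) * ‖z‖ = 0 := by
      rw [h3, ← h0']
      ring
    exfalso
    rcases mul_eq_zero.mp h4 with h | h <;> linarith
  have h6 : (‖z‖ - ‖z'‖) * (2 * ‖z‖ * ‖z'‖ - ‖z‖ - ‖z'‖ + 1) = 0 := by
    have h7 : (2 * ‖z‖ - 1) * ((1 - ‖z'‖) * ‖z'‖) = (2 * ‖z'‖ - 1) * ((1 - ‖z‖) * ‖z‖) := by
      rw [h3, h2]
      ring
    linear_combination h7
  have h8 : ‖z‖ = ‖z'‖ := by
    rcases mul_eq_zero.mp h6 with h | h
    · linarith
    · exfalso
      have h9 : 0 < ‖z‖ * ‖z'‖ := mul_pos h0 h0'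
      have h10 : 0 < (1 - ‖z‖) * (1 - ‖z'‖) := mul_pos (by linarith) (by linarith)
      nlinarith
  have hc1 : c = 1 := by
    rw [h8] at h3
    have h9 : 0 < (1 - ‖z'‖) * ‖z'‖ := mul_pos (by linarith) h0'
    have h10 : (c - 1) * ((1 - ‖z'‖) * ‖z'‖) = 0 := by linarith
    rcases mul_eq_zero.mp h10 with h | h
    · linarith
    · linarith
  funext i
  have h9 := h1 i
  rw [h8, hc1, one_mul] at h9
  exact mul_left_cancel₀ (by linarith) h9

/-- positive multiples -/
theorem t1q_norm {j : ℕ} (x v : Fin j → ℝ) (hx : ‖x‖ = 1) (c : ℝ) (hc : 0 < c)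
    (h : v = c • x) : ‖v‖⁻¹ • v = x := by
  rw [h, norm_smul, hx, mul_one, Real.norm_eq_abs, abs_of_pos hc, smul_smul,
    inv_mul_cancel₀ hc.ne', one_smul]

theorem t1q_surj {j : ℕ} (hj : 0 < j) (x : Fin (j + 1) → ℝ) (hx : ‖x‖ = 1) :
    ∃ z : Fin j → ℝ, ‖z‖ ≤ 1 ∧ ∃ c : ℝ, 0 < c ∧ t1q_p z = c • x := by
  by_cases hw : (fun i : Fin j => x i.castSucc) = 0
  · have hw' : ∀ i : Fin j, x i.castSucc = 0 := fun i => congrFun hw i
    have ht : x (Fin.last j) ≠ 0 := by
      intro h0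
      have : x = 0 := by
        funext i
        refine Fin.lastCases ?_ (fun i => ?_) i
        · exact h0
        · exact hw' i
      rw [this, norm_zero] at hx
      norm_num at hx
    rcases lt_or_gt_of_ne ht with h | h
    · refine ⟨0, by simp, (-x (Fin.last j))⁻¹, inv_pos.mpr (by linarith), ?_⟩
      funext i
      refine Fin.lastCases ?_ (fun i => ?_) i
      · rw [t1q_p_last, Pi.smul_apply, smul_eq_mul, norm_zero]
        have : -x (Fin.last j) ≠ 0 := by linarith
        field_simp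
        ring
      · rw [t1q_p_cast, Pi.smul_apply, smul_eq_mul, hw' i]
        simp
    · have hn : ‖(fun _ : Fin j => (1 : ℝ))‖ = 1 := by
        have : Nonempty (Fin j) := ⟨⟨0, hj⟩⟩
        rw [pi_norm_const]
        norm_num
      refine ⟨fun _ => 1, hn.le, (x (Fin.last j))⁻¹, inv_pos.mpr h, ?_⟩
      funext i
      refine Fin.lastCases ?_ (fun i => ?_) i
      · rw [t1q_p_last, Pi.smul_apply, smul_eq_mul, hn, inv_mul_cancel₀ ht]
        norm_num
      · rw [t1q_p_cast, Pi.smul_apply, smul_eq_mul, hw' i, hn]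
        ring
  · set w : Fin j → ℝ := fun i => x i.castSucc with hwdef
    set t : ℝ := x (Fin.last j) with htdef
    have hα : 0 < ‖w‖ := norm_pos_iff.mpr hw
    have hr : ∃ r : ℝ, 0 < r ∧ r < 1 ∧ ‖w‖ * (2 * r - 1) = 4 * t * (1 - r) * r := by
      have hcont : ContinuousOn (fun r : ℝ => ‖w‖ * (2 * r - 1) - 4 * t * (1 - r) * r)
          (Set.Icc 0 1) := by
        apply Continuous.continuousOn
        fun_prop
      have h1 := intermediate_value_Icc (zero_le_one) hcont
      have h2 : (0 : ℝ) ∈ Set.Icc (‖w‖ * (2 * 0 - 1) - 4 * t * (1 - 0) * 0)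
          (‖w‖ * (2 * 1 - 1) - 4 * t * (1 - 1) * 1) := by
        constructor
        · linarith
        · linarith
      obtain ⟨r, hr, hr2⟩ := h1 h2
      simp only at hr2
      refine ⟨r, ?_, ?_, by linarith⟩
      · rcases eq_or_lt_of_le hr.1 with h | h
        · rw [← h] at hr2
          linarith
        · exact h
      · rcases eq_or_lt_of_le hr.2 with h | h
        · rw [h] at hr2
          linarith
        · exact h
    obtain ⟨r, hr0, hr1, hr2⟩ := hr
    have hn : ‖(r / ‖w‖) • w‖ = r := by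
      rw [norm_smul, Real.norm_eq_abs, abs_of_pos (by positivity)]
      field_simp
    refine ⟨(r / ‖w‖) • w, by linarith, 4 * (1 - r) * (r / ‖w‖), ?_, ?_⟩
    · have : 0 < 1 - r := by linarith
      positivity
    · funext i
      refine Fin.lastCases ?_ (fun i => ?_) i
      · rw [t1q_p_last, Pi.smul_apply, smul_eq_mul, hn, ← htdef]
        field_simp
        linarith
      · rw [t1q_p_cast, Pi.smul_apply, Pi.smul_apply, smul_eq_mul, smul_eq_mul, hn]
        simp only [hwdef]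
        ring

theorem t1q_boundary {j : ℕ} (y : Fin j → unitInterval) :
    y ∈ Cube.boundary (Fin j) ↔ ‖(fun i => 2 * (y i : ℝ) - 1)‖ = 1 := by
  have hle : ∀ i, ‖(2 * (y i : ℝ) - 1)‖ ≤ 1 := by
    intro i
    rw [Real.norm_eq_abs, abs_le]
    have h1 := (y i).2.1
    have h2 := (y i).2.2
    constructor <;> linarith
  have hle' : ‖(fun i => 2 * (y i : ℝ) - 1)‖ ≤ 1 :=
    (pi_norm_le_iff_of_nonneg zero_le_one).mpr hle
  constructor
  · rintro ⟨i, hi⟩
    apply le_antisymm hle'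
    have h1 : ‖(2 * (y i : ℝ) - 1)‖ = 1 := by
      rcases hi with hi | hi
      · rw [hi]
        norm_num
      · rw [hi]
        norm_num
    exact le_trans h1.ge (norm_le_pi_norm (fun i => 2 * (y i : ℝ) - 1) i)
  · intro h
    by_contra hcon
    have h1 : ∀ i, ‖(2 * (y i : ℝ) - 1)‖ < 1 := by
      intro i
      apply lt_of_le_of_ne (hle i)
      intro h2
      apply hcon
      refine ⟨i, ?_⟩
      rw [Real.norm_eq_abs] at h2
      rcases abs_eq (zero_le_one) |>.mp h2 with h3 | h3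
      · right
        apply Subtype.ext
        change (y i : ℝ) = 1
        linarith
      · left
        apply Subtype.ext
        change (y i : ℝ) = 0
        linarith
    have h2 := (pi_norm_lt_iff (x := fun i => 2 * (y i : ℝ) - 1) one_pos).mpr h1
    linarith

/-- ROW T1q. The collapse of the boundary of a cube (norms are sup norms).

Proof. For `y : Fin j → I` let `z i = 2 * y i - 1 ∈ [-1, 1]`, `r = ‖z‖` (so `y` is in the boundary iff
`r = 1`, `0 < j`), and `p y = (4 (1 - r) z, 2 r - 1) ∈ ℝ ^ j × ℝ` as `Fin.snoc`. `p y ≠ 0`: the first part is 0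
only if `z = 0` or `r = 1` and then the second is `-1` or `1`. Let `q y = ‖p y‖⁻¹ • p y`. It is continuous,
of norm 1, and equal to `b = Fin.snoc 0 1` on the boundary.
Surjectivity: let `x = Fin.snoc w t` have norm 1. If `w = 0` then `t = ± 1`: take `z = 0` (`t = -1`) or any
`y` in the boundary (`t = 1`). If `α = ‖w‖ > 0`, there is `r ∈ (0, 1)` with
`α (2 r - 1) = 4 t (1 - r) r` (intermediate value theorem: the difference `α (2 r - 1) - 4 t (1 - r) r` is
`-α` at 0 and `α` at 1); take `z = (r / α) • w`: `p y = (4 (1 - r) r / α) • (w, t)` as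
`2 r - 1 = 4 t (1 - r) r / α`, a positive multiple of `x`.
Injectivity up to the boundary: let `q y = q y'`, so `p y = c • p y'` with `c > 0`. If `r = 1` then the
first part of `p y` is 0 and its second is `1`, so `p y'` has first part 0 and positive second part, i.e.
`r' = 1`. If `r, r' < 1`: `4 (1 - r) z = c 4 (1 - r') z'` and `2 r - 1 = c (2 r' - 1)`. If `z = 0` then `z' = 0`.
Otherwise `r, r' ∈ (0, 1)`, taking norms `(1 - r) r = c (1 - r') r'`, so
`(2 r - 1) (1 - r') r' = (2 r' - 1) (1 - r) r`, i.e. `(r - r') (2 r r' - r - r' + 1) = 0` with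
`2 r r' - r - r' + 1 = r r' + (1 - r) (1 - r') > 0`, so `r = r'`, `c = 1`, `z = z'`. -/
theorem exists_collapse (j : ℕ) (hj : 0 < j) :
    ∃ (q : (Fin j → unitInterval) → Fin (j + 1) → ℝ) (b : Fin (j + 1) → ℝ), Continuous q ∧
      (∀ y, ‖q y‖ = 1) ∧ (∀ y ∈ Cube.boundary (Fin j), q y = b) ∧
      (∀ x, ‖x‖ = 1 → ∃ y, q y = x) ∧
      (∀ y y', q y = q y' → y = y' ∨ (y ∈ Cube.boundary (Fin j) ∧ y' ∈ Cube.boundary (Fin j))) := by
  have hle : ∀ y : Fin j → unitInterval, ‖(fun i => 2 * (y i : ℝ) - 1)‖ ≤ 1 := by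
    intro y
    refine (pi_norm_le_iff_of_nonneg zero_le_one).mpr ?_
    intro i
    rw [Real.norm_eq_abs, abs_le]
    have h1 := (y i).2.1
    have h2 := (y i).2.2
    constructor <;> linarith
  have hzc : Continuous (fun (y : Fin j → unitInterval) (i : Fin j) => 2 * (y i : ℝ) - 1) := by
    apply continuous_pi
    intro i
    exact (continuous_const.mul (continuous_subtype_val.comp (continuous_apply i))).sub
      continuous_const
  have hpc : Continuous (fun (y : Fin j → unitInterval) => t1q_p (fun i => 2 * (y i : ℝ) - 1)) :=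
    t1q_p_cont.comp hzc
  refine ⟨fun y => ‖t1q_p (fun i => 2 * (y i : ℝ) - 1)‖⁻¹ • t1q_p (fun i => 2 * (y i : ℝ) - 1),
    ‖(Fin.snoc (α := fun _ => ℝ) (fun _ : Fin j => (0 : ℝ)) 1 : Fin (j + 1) → ℝ)‖⁻¹ •
      (Fin.snoc (α := fun _ => ℝ) (fun _ : Fin j => (0 : ℝ)) 1 : Fin (j + 1) → ℝ), ?_, ?_, ?_, ?_, ?_⟩
  · have hnc : Continuous (fun y : Fin j → unitInterval =>
        ‖t1q_p (fun i => 2 * (y i : ℝ) - 1)‖⁻¹) :=
      hpc.norm.inv₀ (fun y => (norm_pos_iff.mpr (t1q_p_ne _)).ne')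
    exact hnc.smul hpc
  · intro y
    have h1 : 0 < ‖t1q_p (fun i => 2 * (y i : ℝ) - 1)‖ := norm_pos_iff.mpr (t1q_p_ne _)
    rw [norm_smul, norm_inv, norm_norm, inv_mul_cancel₀ h1.ne']
  · intro y hy
    have h1 := (t1q_boundary y).mp hy
    have h2 : t1q_p (fun i => 2 * (y i : ℝ) - 1) =
        (Fin.snoc (α := fun _ => ℝ) (fun _ : Fin j => (0 : ℝ)) 1 : Fin (j + 1) → ℝ) := by
      funext i
      refine Fin.lastCases ?_ (fun i => ?_) i
      · rw [t1q_p_last, h1, Fin.snoc_last]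
        norm_num
      · rw [t1q_p_cast, h1, Fin.snoc_castSucc]
        ring
    simp only [h2]
  · intro x hx
    obtain ⟨z, hz, c, hc, h⟩ := t1q_surj hj x hx
    have hzi : ∀ i, |z i| ≤ 1 := fun i => le_trans (norm_le_pi_norm z i) hz
    refine ⟨fun i => ⟨(z i + 1) / 2, ?_, ?_⟩, ?_⟩
    · have := (abs_le.mp (hzi i)).1
      linarith
    · have := (abs_le.mp (hzi i)).2
      linarith
    · have h1 : (fun i => 2 * ((z i + 1) / 2) - 1) = z := by
        funext i
        ring
      simp only [h1]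
      exact t1q_norm x _ hx c hc h
  · intro y y' h
    simp only at h
    set z : Fin j → ℝ := fun i => 2 * (y i : ℝ) - 1 with hz
    set z' : Fin j → ℝ := fun i => 2 * (y' i : ℝ) - 1 with hz'
    have h1 : 0 < ‖t1q_p z‖ := norm_pos_iff.mpr (t1q_p_ne _)
    have h2 : 0 < ‖t1q_p z'‖ := norm_pos_iff.mpr (t1q_p_ne _)
    have h3 : t1q_p z = (‖t1q_p z‖ * ‖t1q_p z'‖⁻¹) • t1q_p z' := by
      have h4 := congrArg (fun v => ‖t1q_p z‖ • v) h
      simp only [smul_smul] at h4
      rw [mul_inv_cancel₀ h1.ne', one_smul] at h4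
      exact h4
    have hc : 0 < ‖t1q_p z‖ * ‖t1q_p z'‖⁻¹ := by positivity
    have h5 : ∀ i, (1 - ‖z‖) * z i = ‖t1q_p z‖ * ‖t1q_p z'‖⁻¹ * ((1 - ‖z'‖) * z' i) := by
      intro i
      have h6 := congrFun h3 i.castSucc
      rw [Pi.smul_apply, smul_eq_mul, t1q_p_cast, t1q_p_cast] at h6
      linarith
    have h7 : 2 * ‖z‖ - 1 = ‖t1q_p z‖ * ‖t1q_p z'‖⁻¹ * (2 * ‖z'‖ - 1) := by
      have h6 := congrFun h3 (Fin.last j)
      rw [Pi.smul_apply, smul_eq_mul, t1q_p_last, t1q_p_last] at h6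
      exact h6
    rcases t1q_inj z z' (hle y) (hle y') _ hc h5 h7 with h8 | ⟨h8, h9⟩
    · left
      funext i
      apply Subtype.ext
      have h10 := congrFun h8 i
      simp only [hz, hz'] at h10
      linarith
    · right
      exact ⟨(t1q_boundary y).mpr h8, (t1q_boundary y').mpr h9⟩

end Pool.Agent.KZT
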