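import Mathlib
import Pool.Agent.KZT.T1q

set_option autoImplicit false

namespace Pool.Agent.KZT

open Finset Topology

/-- ROW T1h. Vanishing of a homotopy group: maps of the sphere are null-homotopic.

Proof. Let `q`, `b` be as in `exists_collapse`. `p := g ∘ q` is an element of
`GenLoop (Fin j) X (g b)` (continuous because `q` has values in the sphere). As
`HomotopyGroup.Pi j X (g b)` is a subsingleton (a quotient of `GenLoop`), `p` is homotopic to the constant
loop: `Quotient.exact`, `GenLoop.Homotopic`, so there is a continuous `H : I × (Fin j → I) → X` with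
`H (0, y) = g (q y)`, `H (1, y) = g b`, `H (t, y) = g b` for `y` in the boundary
(`ContinuousMap.HomotopyRel`). The map `id × q : I × (Fin j → I) → I × sphere` is a continuous surjection of
compact Hausdorff spaces, hence a quotient map (`Topology.IsQuotientMap.of_surjective_continuous`,
`IsClosedMap`), and `H` is constant on its fibres, so `H = H' ∘ (id × q)` with `H'` continuous
(`IsQuotientMap.lift` or `Topology.IsQuotientMap.continuous_iff` for
`H' (t, s) = H (t, choice of y with q y = s)`). -/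
theorem exists_null (j : ℕ) (hj : 0 < j) {X : Type*} [TopologicalSpace X]
    (h : ∀ x : X, Subsingleton (HomotopyGroup.Pi j X x)) (g : (Fin (j + 1) → ℝ) → X)
    (hg : ContinuousOn g (Metric.sphere 0 1)) :
    ∃ (H : ℝ → (Fin (j + 1) → ℝ) → X) (c : X),
      ContinuousOn (Function.uncurry H) (Set.Icc (0 : ℝ) 1 ×ˢ Metric.sphere 0 1) ∧
      (∀ x, ‖x‖ = 1 → H 0 x = g x) ∧ ∀ x, ‖x‖ = 1 → H 1 x = c := by
  classical
  obtain ⟨q, b, hq, hq1, hqb, hqs, hqi⟩ := exists_collapse j hj
  have hqS : ∀ y, q y ∈ Metric.sphere (0 : Fin (j + 1) → ℝ) 1 := by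
    intro y
    rw [mem_sphere_zero_iff_norm]
    exact hq1 y
  have hgq : Continuous (g ∘ q) := hg.comp_continuous hq hqS
  let p : GenLoop (Fin j) X (g b) := ⟨⟨g ∘ q, hgq⟩, fun y hy => by
    show g (q y) = g b
    rw [hqb y hy]⟩
  have hsub := h (g b)
  have hhom : GenLoop.Homotopic p (GenLoop.const) := by
    have : (Quotient.mk (GenLoop.Homotopic.setoid (Fin j) (g b)) p) =
        Quotient.mk (GenLoop.Homotopic.setoid (Fin j) (g b)) GenLoop.const :=
      hsub.allEq _ _
    exact Quotient.exact this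
  obtain ⟨H⟩ := hhom
  have H0 : ∀ y, H (0, y) = g (q y) := fun y => H.apply_zero y
  have H1 : ∀ y, H (1, y) = g b := fun y => H.apply_one y
  have Hb : ∀ t, ∀ y ∈ Cube.boundary (Fin j), H (t, y) = g b := by
    intro t y hy
    rw [H.eq_fst t hy]
    show g (q y) = g b
    rw [hqb y hy]
  -- a section
  have hsec : ∀ s : Metric.sphere (0 : Fin (j + 1) → ℝ) 1, ∃ y, q y = s.1 := by
    intro s
    exact hqs s.1 (mem_sphere_zero_iff_norm.mp s.2)
  choose σ hσ using hsec
  let K : unitInterval × Metric.sphere (0 : Fin (j + 1) → ℝ) 1 → X := fun z => H (z.1, σ z.2)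
  let Q : unitInterval × (Fin j → unitInterval) → unitInterval × Metric.sphere (0 : Fin (j + 1) → ℝ) 1 :=
    fun z => (z.1, ⟨q z.2, hqS z.2⟩)
  have hQc : Continuous Q := by
    refine Continuous.prodMk continuous_fst ?_
    exact (hq.comp continuous_snd).subtype_mk _
  have hQs : Function.Surjective Q := by
    rintro ⟨t, s⟩
    refine ⟨(t, σ s), ?_⟩
    show (t, (⟨q (σ s), hqS (σ s)⟩ : Metric.sphere (0 : Fin (j + 1) → ℝ) 1)) = (t, s)
    congr 1
    exact Subtype.ext (hσ s)
  have hQq : IsQuotientMap Q := (hQc.isClosedMap).isQuotientMap hQc hQs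
  have hKQ : K ∘ Q = H := by
    funext z
    show H (z.1, σ ⟨q z.2, hqS z.2⟩) = H z
    have h1 : q (σ ⟨q z.2, hqS z.2⟩) = q z.2 := hσ ⟨q z.2, hqS z.2⟩
    rcases hqi _ _ h1 with h2 | ⟨h2, h3⟩
    · rw [h2]
    · rw [Hb _ _ h2]
      exact (Hb z.1 z.2 h3).symm
  have hK : Continuous K := by
    rw [hQq.continuous_iff, hKQ]
    exact H.continuous
  refine ⟨fun t s => if hs : t ∈ Set.Icc (0 : ℝ) 1 ∧ s ∈ Metric.sphere (0 : Fin (j + 1) → ℝ) 1 then
    K (⟨t, hs.1⟩, ⟨s, hs.2⟩) else g b, g b, ?_, ?_, ?_⟩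
  · rw [continuousOn_iff_continuous_domRestrict]
    let φ : (Set.Icc (0 : ℝ) 1 ×ˢ Metric.sphere (0 : Fin (j + 1) → ℝ) 1 : Set (ℝ × (Fin (j + 1) → ℝ))) →
      unitInterval × Metric.sphere (0 : Fin (j + 1) → ℝ) 1 := fun z => (⟨z.1.1, z.2.1⟩, ⟨z.1.2, z.2.2⟩)
    have hφ : Continuous φ := by
      refine Continuous.prodMk ?_ ?_
      · exact (continuous_fst.comp continuous_subtype_val).subtype_mk _
      · exact (continuous_snd.comp continuous_subtype_val).subtype_mk _
    refine (hK.comp hφ).congr ?_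
    rintro ⟨⟨t, s⟩, ht⟩
    show K (φ ⟨(t, s), ht⟩) = _
    simp only [Set.domRestrict_apply, Function.uncurry_apply_pair]
    rw [dif_pos ⟨ht.1, ht.2⟩]
  · intro x hx
    have hx' : x ∈ Metric.sphere (0 : Fin (j + 1) → ℝ) 1 := mem_sphere_zero_iff_norm.mpr hx
    simp only
    rw [dif_pos ⟨⟨le_refl _, zero_le_one⟩, hx'⟩]
    show H (0, σ ⟨x, hx'⟩) = g x
    rw [H0, hσ ⟨x, hx'⟩]
  · intro x hx
    have hx' : x ∈ Metric.sphere (0 : Fin (j + 1) → ℝ) 1 := mem_sphere_zero_iff_norm.mpr hx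
    simp only
    rw [dif_pos ⟨⟨zero_le_one, le_refl _⟩, hx'⟩]
    show H (1, σ ⟨x, hx'⟩) = g b
    rw [H1]

end Pool.Agent.KZT
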