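import Mathlib
import Pool.Agent.KZT.T1h

set_option autoImplicit false

namespace Pool.Agent.KZT

open Finset Topology

/-- ROW T1e. A null-homotopy gives an extension to the ball.

Proof. `G x = H (1 - ‖x‖) (‖x‖⁻¹ • x)` for `x ≠ 0` and `G 0 = c`. It is continuous on the ball without the
centre as a composition. At 0: let `W` be a neighbourhood of `c`. The set
`{(t, s) | H t s ∉ interior W}` in the compact `[0, 1] × sphere` is closed and does not meet
`{1} × sphere`; by compactness (generalized tube lemma, `generalized_tube_lemma`) there is `ε > 0` such that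
`H t s ∈ W` for `t > 1 - ε` and all `s`, so `G x ∈ W` for `‖x‖ < ε`. -/
theorem exists_ball_ext (n : ℕ) {X : Type*} [TopologicalSpace X] (H : ℝ → (Fin (n + 1) → ℝ) → X)
    (c : X) (hH : ContinuousOn (Function.uncurry H) (Set.Icc (0 : ℝ) 1 ×ˢ Metric.sphere 0 1))
    (h1 : ∀ x, ‖x‖ = 1 → H 1 x = c) :
    ∃ G : (Fin (n + 1) → ℝ) → X, ContinuousOn G (Metric.closedBall 0 1) ∧
      ∀ x, ‖x‖ = 1 → G x = H 0 x := by
  classical
  refine ⟨fun x => if x = 0 then c else H (1 - ‖x‖) (‖x‖⁻¹ • x), ?_, ?_⟩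
  · rw [continuousOn_iff_continuous_domRestrict]
    have hmem : ∀ q : Set.Icc (0 : ℝ) 1 × Metric.sphere (0 : Fin (n + 1) → ℝ) 1,
        ‖(1 - q.1.1) • q.2.1‖ = 1 - q.1.1 := by
      intro q
      have h2 : ‖q.2.1‖ = 1 := mem_sphere_zero_iff_norm.1 q.2.2
      rw [norm_smul, h2, mul_one, Real.norm_of_nonneg (by linarith [q.1.2.2])]
    let p : Set.Icc (0 : ℝ) 1 × Metric.sphere (0 : Fin (n + 1) → ℝ) 1 →
        Metric.closedBall (0 : Fin (n + 1) → ℝ) 1 :=
      fun q => ⟨(1 - q.1.1) • q.2.1, by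
        rw [mem_closedBall_zero_iff, hmem q]
        linarith [q.1.2.1]⟩
    have hp : Continuous p := by
      refine Continuous.subtype_mk ?_ _
      fun_prop
    have hsurj : Function.Surjective p := by
      rintro ⟨x, hx⟩
      rw [mem_closedBall_zero_iff] at hx
      by_cases h0 : x = 0
      · refine ⟨(⟨1, by norm_num, le_rfl⟩, ⟨fun _ => 1, by
          rw [mem_sphere_zero_iff_norm, pi_norm_const]
          norm_num⟩), ?_⟩
        apply Subtype.ext
        simp [p, h0]
      · have hn : 0 < ‖x‖ := norm_pos_iff.2 h0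
        refine ⟨(⟨1 - ‖x‖, by linarith, by linarith⟩, ⟨‖x‖⁻¹ • x, by
          rw [mem_sphere_zero_iff_norm, norm_smul, norm_inv, norm_norm,
            inv_mul_cancel₀ hn.ne']⟩), ?_⟩
        apply Subtype.ext
        change (1 - (1 - ‖x‖)) • (‖x‖⁻¹ • x) = x
        rw [smul_smul, sub_sub_cancel, mul_inv_cancel₀ hn.ne', one_smul]
    have hq : IsQuotientMap p := hp.isClosedMap.isQuotientMap hp hsurj
    rw [hq.continuous_iff]
    have hc : Continuous (fun q : Set.Icc (0 : ℝ) 1 × Metric.sphere (0 : Fin (n + 1) → ℝ) 1 =>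
        Function.uncurry H (q.1.1, q.2.1)) :=
      hH.comp_continuous (by fun_prop) (fun q => ⟨q.1.2, q.2.2⟩)
    refine hc.congr ?_
    intro q
    change H q.1.1 q.2.1 = if (1 - q.1.1) • q.2.1 = 0 then c else
      H (1 - ‖(1 - q.1.1) • q.2.1‖) (‖(1 - q.1.1) • q.2.1‖⁻¹ • ((1 - q.1.1) • q.2.1))
    have h2 : ‖q.2.1‖ = 1 := mem_sphere_zero_iff_norm.1 q.2.2
    by_cases h0 : q.1.1 = 1
    · rw [if_pos (by rw [h0]; simp), h0]
      exact h1 _ h2
    · have hne : (1 - q.1.1) ≠ 0 := fun h => h0 (by linarith)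
      rw [if_neg, hmem q, sub_sub_cancel, smul_smul, inv_mul_cancel₀ hne, one_smul]
      rw [← norm_eq_zero, hmem q]
      exact hne
  · intro x hx
    have h0 : x ≠ 0 := by
      rintro rfl
      rw [norm_zero] at hx
      exact zero_ne_one hx
    change (if x = 0 then c else H (1 - ‖x‖) (‖x‖⁻¹ • x)) = H 0 x
    rw [if_neg h0, hx, sub_self, inv_one, one_smul]

end Pool.Agent.KZT
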