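import Mathlib
import Pool.Agent.KZT.D0

set_option autoImplicit false

namespace Pool.Agent.KZT

open Finset Topology

/-- ROW T1s. One step of the equivariant extension.

Proof. For `x : Fin (d + 2) → ℝ` let `w = Fin.init x`, `t = x (Fin.last (d + 1))`; `‖x‖ = 1` implies
`‖w‖ ≤ 1`. Put `F' x = G w` if `0 ≤ t` and `F' x = ν (G (nuR k w))` if `t < 0`. For `t = 0` and `‖x‖ = 1` we
have `‖w‖ = 1` and `ν (G (nuR k w)) = ν (F (nuR k w)) = F (nuR k (nuR k w)) = F w = G w` (`hFnu` for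
`nuR k w`), so `F'` is continuous on the sphere (`ContinuousOn.if` or
`ContinuousOn.union_of_isClosed` for the closed pieces `{0 ≤ t}` and `{t ≤ 0}`). `nuR k` changes the sign
of `t` because `k ≤ d + 1` and `Fin.init (nuR k x) = nuR k w`: for `t > 0`
`F' (nuR k x) = ν (G (nuR k (nuR k w))) = ν (F' x)`; for `t < 0` `F' (nuR k x) = G (nuR k w) = ν (F' x)`
(`ν ∘ ν = id`); for `t = 0`, `‖w‖ = 1`, both are `F (nuR k w) = ν (F w)`. `Fin.init (Fin.snoc u 0) = u`. -/
theorem ext_step {X : Type*} [TopologicalSpace X] (ν : X → X) (hν : Continuous ν)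
    (hνν : ∀ x, ν (ν x) = x) (d k : ℕ) (hk : k ≤ d + 1) (F G : (Fin (d + 1) → ℝ) → X)
    (hFnu : ∀ x, ‖x‖ = 1 → F (nuR k x) = ν (F x))
    (hG : ContinuousOn G (Metric.closedBall 0 1)) (hGF : ∀ x, ‖x‖ = 1 → G x = F x) :
    ∃ F' : (Fin (d + 1 + 1) → ℝ) → X, ContinuousOn F' (Metric.sphere 0 1) ∧
      (∀ x, ‖x‖ = 1 → F' (nuR k x) = ν (F' x)) ∧
      ∀ u : Fin (d + 1) → ℝ, ‖u‖ = 1 → F' (Fin.snoc (α := fun _ => ℝ) u 0) = F u := by
  have hci : Continuous (fun x : Fin (d + 1 + 1) → ℝ => (Fin.init (α := fun _ => ℝ) x : Fin (d + 1) → ℝ)) :=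
    continuous_pi fun j => continuous_apply _
  have hinit : ∀ x : Fin (d + 1 + 1) → ℝ, ‖x‖ = 1 → ‖(Fin.init (α := fun _ => ℝ) x : Fin (d + 1) → ℝ)‖ ≤ 1 := by
    intro x hx
    rw [pi_norm_le_iff_of_nonneg (by norm_num)]
    intro j
    rw [← hx]
    exact norm_le_pi_norm x (Fin.castSucc j)
  have hinit1 : ∀ x : Fin (d + 1 + 1) → ℝ, ‖x‖ = 1 → x (Fin.last (d + 1)) = 0 →
      ‖(Fin.init (α := fun _ => ℝ) x : Fin (d + 1) → ℝ)‖ = 1 := by
    intro x hx h0
    refine le_antisymm (hinit x hx) ?_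
    rw [← hx, pi_norm_le_iff_of_nonneg (norm_nonneg _)]
    intro j
    refine Fin.lastCases ?_ (fun i => ?_) j
    · rw [h0, norm_zero]
      exact norm_nonneg _
    · exact norm_le_pi_norm (Fin.init (α := fun _ => ℝ) x : Fin (d + 1) → ℝ) i
  have hnuinit : ∀ x : Fin (d + 1 + 1) → ℝ, (Fin.init (α := fun _ => ℝ) (nuR k x) : Fin (d + 1) → ℝ) =
      nuR k (Fin.init (α := fun _ => ℝ) x : Fin (d + 1) → ℝ) := by
    intro x
    funext j
    simp only [Fin.init, nuR, Fin.val_castSucc]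
  have hnulast : ∀ x : Fin (d + 1 + 1) → ℝ, nuR k x (Fin.last (d + 1)) = -x (Fin.last (d + 1)) := by
    intro x
    unfold nuR
    rw [if_neg]
    rw [Fin.val_last]
    omega
  have hzero : ∀ w : Fin (d + 1) → ℝ, ‖w‖ = 1 → ν (G (nuR k w)) = G w := by
    intro w hw
    rw [hGF _ (by rw [norm_nuR]; exact hw), hGF _ hw, ← hFnu _ (by rw [norm_nuR]; exact hw), nuR_nuR]
  have hc1 : ContinuousOn (fun x : Fin (d + 1 + 1) → ℝ => G (Fin.init (α := fun _ => ℝ) x)) (Metric.sphere 0 1) := by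
    refine hG.comp hci.continuousOn fun x hx => ?_
    rw [mem_sphere_zero_iff_norm] at hx
    rw [mem_closedBall_zero_iff]
    exact hinit x hx
  have hc2 : ContinuousOn (fun x : Fin (d + 1 + 1) → ℝ => ν (G (nuR k (Fin.init (α := fun _ => ℝ) x)))) (Metric.sphere 0 1) := by
    refine hν.comp_continuousOn (hG.comp ((continuous_nuR k).comp hci).continuousOn fun x hx => ?_)
    rw [mem_sphere_zero_iff_norm] at hx
    rw [mem_closedBall_zero_iff]
    show ‖nuR k (Fin.init (α := fun _ => ℝ) x : Fin (d + 1) → ℝ)‖ ≤ 1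
    rw [norm_nuR]
    exact hinit x hx
  have hl : Continuous (fun x : Fin (d + 1 + 1) → ℝ => x (Fin.last (d + 1))) := continuous_apply _
  refine ⟨fun x => if 0 ≤ x (Fin.last (d + 1)) then G (Fin.init (α := fun _ => ℝ) x)
    else ν (G (nuR k (Fin.init (α := fun _ => ℝ) x))), ?_, ?_, ?_⟩
  · have e : Metric.sphere (0 : Fin (d + 1 + 1) → ℝ) 1 =
        (Metric.sphere 0 1 ∩ {x | 0 ≤ x (Fin.last (d + 1))}) ∪ (Metric.sphere 0 1 ∩ {x | x (Fin.last (d + 1)) ≤ 0}) := by
      ext x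
      constructor
      · intro hx
        rcases le_total 0 (x (Fin.last (d + 1))) with h | h
        · exact Or.inl ⟨hx, h⟩
        · exact Or.inr ⟨hx, h⟩
      · rintro (h | h)
        · exact h.1
        · exact h.1
    rw [e]
    refine ContinuousOn.union_of_isClosed ?_ ?_ (Metric.isClosed_sphere.inter (isClosed_le continuous_const hl))
      (Metric.isClosed_sphere.inter (isClosed_le hl continuous_const))
    · refine (hc1.mono Set.inter_subset_left).congr fun x hx => ?_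
      exact if_pos hx.2
    · refine (hc2.mono Set.inter_subset_left).congr fun x hx => ?_
      obtain ⟨hx1, hx2⟩ := hx
      rw [mem_sphere_zero_iff_norm] at hx1
      by_cases h : 0 ≤ x (Fin.last (d + 1))
      · have h0 : x (Fin.last (d + 1)) = 0 := le_antisymm hx2 h
        show (if 0 ≤ x (Fin.last (d + 1)) then G (Fin.init (α := fun _ => ℝ) x)
          else ν (G (nuR k (Fin.init (α := fun _ => ℝ) x)))) = _
        rw [if_pos h]
        exact (hzero _ (hinit1 x hx1 h0)).symm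
      · exact if_neg h
  · intro x hx
    show (if 0 ≤ nuR k x (Fin.last (d + 1)) then G (Fin.init (α := fun _ => ℝ) (nuR k x))
      else ν (G (nuR k (Fin.init (α := fun _ => ℝ) (nuR k x))))) =
      ν (if 0 ≤ x (Fin.last (d + 1)) then G (Fin.init (α := fun _ => ℝ) x)
        else ν (G (nuR k (Fin.init (α := fun _ => ℝ) x))))
    rw [hnulast, hnuinit, nuR_nuR]
    rcases lt_trichotomy (x (Fin.last (d + 1))) 0 with h | h | h
    · rw [if_pos (by linarith), if_neg (by linarith), hνν]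
    · have h1 := hinit1 x hx h
      rw [if_pos (by linarith), if_pos (by linarith), ← hzero _ h1, hνν]
    · rw [if_neg (by linarith), if_pos h.le]
  · intro u hu
    show (if 0 ≤ (Fin.snoc (α := fun _ => ℝ) u 0 : Fin (d + 1 + 1) → ℝ) (Fin.last (d + 1)) then
      G (Fin.init (α := fun _ => ℝ) (Fin.snoc (α := fun _ => ℝ) u 0)) else _) = F u
    rw [Fin.snoc_last, if_pos le_rfl, Fin.init_snoc]
    exact hGF u hu

end Pool.Agent.KZT
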