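import Mathlib
import Pool.Agent.KZT.D0
import Pool.Agent.KZT.T1q
import Pool.Agent.KZT.T1h
import Pool.Agent.KZT.T1e
import Pool.Agent.KZT.T1s

set_option autoImplicit false

namespace Pool.Agent.KZT

open Finset Topology

theorem t1c_norm_pad {k n : ℕ} (hkn : k ≤ n) (u : Fin k → ℝ) : ‖pad n u‖ = ‖u‖ := by
  have h1 : ∀ j : Fin k, pad n u ⟨j, lt_of_lt_of_le j.2 hkn⟩ = u j := by
    intro j
    simp [pad]
  apply le_antisymm
  · rw [pi_norm_le_iff_of_nonneg (norm_nonneg _)]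
    intro j
    unfold pad
    split_ifs with h
    · exact norm_le_pi_norm u _
    · simp
  · rw [pi_norm_le_iff_of_nonneg (norm_nonneg _)]
    intro j
    rw [← h1 j]
    exact norm_le_pi_norm _ _

theorem t1c_pad_snoc {k d : ℕ} (hk : k ≤ d + 1) (u : Fin k → ℝ) :
    pad (d + 1 + 1) u = Fin.snoc (α := fun _ => ℝ) (pad (d + 1) u) 0 := by
  funext j
  refine Fin.lastCases ?_ (fun i => ?_) j
  · rw [Fin.snoc_last]
    unfold pad
    rw [dif_neg]
    simp only [Fin.val_last]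
    omega
  · rw [Fin.snoc_castSucc]
    unfold pad
    simp only [Fin.val_castSucc]

theorem t1c_sphere {X : Type*} [TopologicalSpace X] (ν : X → X) (hν : Continuous ν)
    (hνν : ∀ x, ν (ν x) = x) (κ M : ℕ) (hk : 1 ≤ κ)
    (hπ : ∀ j, κ + 1 ≤ j + 1 → j ≤ M → ∀ x : X, Subsingleton (HomotopyGroup.Pi j X x))
    (s : (Fin (κ + 1) → ℝ) → X) (hs : ContinuousOn s (Metric.sphere 0 1))
    (hfix : ∀ u, ‖u‖ = 1 → ν (s u) = s u) (d : ℕ) (hd : κ ≤ d) :
    d ≤ M → ∃ F : (Fin (d + 1) → ℝ) → X, ContinuousOn F (Metric.sphere 0 1) ∧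
      (∀ x, ‖x‖ = 1 → F (nuR (κ + 1) x) = ν (F x)) ∧ ∀ u, ‖u‖ = 1 → F (pad (d + 1) u) = s u := by
  induction d, hd using Nat.le_induction with
  | base =>
    intro _
    refine ⟨s, hs, ?_, ?_⟩
    · intro x hx
      rw [hfix x hx]
      congr 1
      funext j
      unfold nuR
      rw [if_pos j.2]
    · intro u _
      congr 1
      funext j
      unfold pad
      rw [dif_pos j.2]
  | succ d hd ih =>
    intro hM
    obtain ⟨F, hF, hFν, hFs⟩ := ih (by omega)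
    obtain ⟨H, c, hH, hH0, hH1⟩ := exists_null d (by omega) (hπ d (by omega) (by omega)) F hF
    obtain ⟨G, hG, hG0⟩ := exists_ball_ext d H c hH hH1
    obtain ⟨F', hF', hF'ν, hF'u⟩ := ext_step ν hν hνν d (κ + 1) (by omega) F G hFν hG
      (fun x hx => (hG0 x hx).trans (hH0 x hx))
    refine ⟨F', hF', hF'ν, ?_⟩
    intro u hu
    rw [t1c_pad_snoc (by omega), hF'u _ (by rw [t1c_norm_pad (by omega), hu]), hFs u hu]

/-- ROW T1c. The equivariant extension.

Proof. By induction on `d` with `k ≤ d + 1 ≤ M + 1`: there is `F : (Fin (d + 1) → ℝ) → X`, continuous on the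
sphere, `F (nuR k x) = ν (F x)` on the sphere and `F (pad (d + 1) u) = s u`. For `d + 1 = k`: `F = s`
(`nuR k x = x`, `pad k u = u`; transport along `k = d + 1` by `subst`/`obtain rfl`). Step: `exists_null`,
`exists_ball_ext` (for `j = d`, `k - 1 ≤ d ≤ M`) give the extension `G` of `F` to the ball, and `ext_step` gives
`F'`; `pad (d + 2) u = Fin.snoc (pad (d + 1) u) 0` and `‖pad n u‖ = ‖u‖` for `k ≤ n`. At the end extend
the map for `d = M` to the ball in the same way. -/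
theorem equivariant_extension {X : Type*} [TopologicalSpace X] (ν : X → X) (hν : Continuous ν)
    (hνν : ∀ x, ν (ν x) = x) (k M : ℕ) (hk : 2 ≤ k) (hkM : k ≤ M + 1)
    (hπ : ∀ j, k ≤ j + 1 → j ≤ M → ∀ x : X, Subsingleton (HomotopyGroup.Pi j X x))
    (s : (Fin k → ℝ) → X) (hs : ContinuousOn s (Metric.sphere 0 1))
    (hfix : ∀ u, ‖u‖ = 1 → ν (s u) = s u) :
    ∃ F : (Fin (M + 1) → ℝ) → X, ContinuousOn F (Metric.closedBall 0 1) ∧
      (∀ x, ‖x‖ = 1 → F (nuR k x) = ν (F x)) ∧ ∀ u, ‖u‖ = 1 → F (pad (M + 1) u) = s u := by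
  obtain ⟨κ, rfl⟩ : ∃ κ, k = κ + 1 := ⟨k - 1, by omega⟩
  obtain ⟨F, hF, hFν, hFs⟩ := t1c_sphere ν hν hνν κ M (by omega) hπ s hs hfix M (by omega) le_rfl
  obtain ⟨H, c, hH, hH0, hH1⟩ := exists_null M (by omega) (hπ M (by omega) le_rfl) F hF
  obtain ⟨G, hG, hG0⟩ := exists_ball_ext M H c hH hH1
  have hGF : ∀ x, ‖x‖ = 1 → G x = F x := fun x hx => (hG0 x hx).trans (hH0 x hx)
  refine ⟨G, hG, ?_, ?_⟩
  · intro x hx
    rw [hGF _ (by rw [norm_nuR, hx]), hFν x hx, hGF x hx]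
  · intro u hu
    rw [hGF _ (by rw [t1c_norm_pad (by omega), hu]), hFs u hu]

end Pool.Agent.KZT
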